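import Pool.Agent.P8H58.DL.StmB

/-!
# Project DL (helper58), package WPR: the weights of the base group of `G ≀ C_r`

(Copied from `N85/WM/Ww.lean` with `ZMod r` instead of `ZMod p`.)
-/

set_option autoImplicit false

open scoped Classical

noncomputable section

namespace Pool.Agent.P8H84.DL

open Pool.Agent.Y63.NV Pool.Agent.N85.WM Pool.Agent.N85.WM.Ww
open Pool.Agent.Y63.AWC (IsIrreducibleCharacter)
open Pool.Agent.P8H58.DL

section wreath

variable {p r : ℕ} {G : Type} [Group G]
variable {F : Type} [Field F] {red : integralClosure ℤ ℂ →+* F} {e : G → F}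

theorem FO_iff' (h1 : S_WPI) (h2 : S_WPC) [Fact p.Prime] [Fact r.Prime] [Finite G] (he : IsClassFun e)
    (w : ZMod r → WT p red e) :
    FO (piMap h1 h2 he w).1.1 (piMap h1 h2 he w).1.2 ↔ ∀ i, orb he (w i) = orb he (w 0) := by
  change FO (piSub fun i => (w i).1.1) (tensF fun i => (w i).1.2) ↔ _
  constructor
  · rintro ⟨n, t, ht, h3, h4⟩
    -- the conjugate tuple
    set w' : ZMod r → WT p red e := fun j =>
      ⟨cj (n (j + t))⁻¹ (w (j + t)).1, cj_mem he _ (w (j + t)).2⟩ with hw'
    have e1 : piSub (fun i => (w' i).1.1) = piSub fun i => (w i).1.1 := by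
      ext x
      rw [h3 x, mem_piSub, mem_piSub]
      constructor
      · intro h i
        have h5 := h (i - t)
        simp only [hw', cj] at h5
        rw [sub_add_cancel, mem_cm, inv_inv, MulAut.conj_apply] at h5
        exact h5
      · intro h i
        have h5 := h (i + t)
        simp only [sh] at h5
        rw [add_sub_cancel_right] at h5
        simp only [hw', cj]
        rw [mem_cm, inv_inv, MulAut.conj_apply]
        exact h5
    have e2 : tensF (fun i => (w' i).1.2) = tensF fun i => (w i).1.2 := by
      funext x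
      rw [h4 x]
      unfold tensF
      refine Fintype.prod_equiv (Equiv.addRight t) _ _ fun i => ?_
      simp only [hw', cj, sh, Equiv.coe_addRight]
      rw [add_sub_cancel_right, inv_inv, MulAut.conj_apply]
    obtain ⟨e3, e4⟩ := (h1 p (ZMod r) G).2 _ _ _ _ (fun i => (w' i).2.1) (fun i => (w i).2.1) e1 e2
    have e5 : ∀ j, orb he (w j) = orb he (w (j + t)) := by
      intro j
      rw [orb_eq]
      refine ⟨(n (j + t))⁻¹, ?_⟩
      exact Prod.ext (congrFun e3 j) (congrFun e4 j)
    have e6 : ∀ k : ℕ, orb he (w (k * t)) = orb he (w 0) := by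
      intro k
      induction k with
      | zero => simp
      | succ k ih =>
        rw [← ih, e5 (k * t)]
        congr 2
        push_cast
        ring
    intro i
    have h5 := e6 (i * t⁻¹).val
    rw [ZMod.natCast_zmod_val, mul_assoc, inv_mul_cancel₀ ht, mul_one] at h5
    exact h5
  · intro h
    have h3 : ∀ i, ∃ g : G, cj g (w (i - 1)).1 = (w i).1 := fun i =>
      (orb_eq he).1 ((h i).trans (h (i - 1)).symm)
    choose n hn using h3
    refine ⟨n, 1, one_ne_zero, ?_, ?_⟩
    · intro x
      rw [mem_piSub, mem_piSub]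
      have key : ∀ i, x (i - 1) ∈ (w (i - 1)).1.1 ↔ sh n 1 x i ∈ (w i).1.1 := by
        intro i
        rw [← hn i]
        simp only [cj, sh]
        rw [mem_cm, MulAut.conj_apply]
        have : (n i)⁻¹ * (n i * x (i - 1) * (n i)⁻¹) * (n i)⁻¹⁻¹ = x (i - 1) := by group
        rw [this]
      constructor
      · intro h i
        exact (key i).1 (h (i - 1))
      · intro h i
        have := (key (i + 1)).2 (h (i + 1))
        rwa [add_sub_cancel_right] at this
    · intro x
      unfold tensF
      symm
      refine Fintype.prod_equiv (Equiv.subRight 1) _ _ fun i => ?_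
      simp only [Equiv.subRight_apply]
      rw [← hn i]
      simp only [cj, sh]
      rw [MulAut.conj_apply]
      group

end wreath

theorem wpr : S_WPR := by
  intro p _ r _ F _ _ _ red G _ _ e w he hw
  have h1 : S_WPI := Pool.Agent.N85.WM.Wpi.main
  have h2 : S_WPC := Pool.Agent.N85.WM.Wpi.wpc
  have : Finite (Orb p red he.cl) := by
    unfold Orb
    infer_instance
  have : Fintype (Orb p red he.cl) := Fintype.ofFinite _
  rw [wsum_tot] at hw
  have hG : (Nat.card G : ℤ) ≠ 0 := by
    exact_mod_cast Nat.card_pos.ne'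
  have hO : (Fintype.card (Orb p red he.cl) : ℤ) = w := by
    have h4 := (tot_orb (p := p) (red := red) he.cl).symm.trans hw
    exact mul_left_cancel₀ hG h4
  have hcl : IsClassFun (fun x : Base r G => wrF r e x) := by
    intro g x
    exact (inZ (p := r) he.cl).conj (g : Wr r G) (x : Wr r G)
  have hF : (fun x : ZMod r → G => wrF r e (bE r G x : Base r G)) = tensF fun _ => e :=
    funext wrF_bE
  have hwc : ∀ (Q : Subgroup (Base r G)) (χ : Base r G → ℂ), IsW p Q χ →
      wcv red (cm (bE r G) Q) (fun x => χ (bE r G x)) (tensF fun _ => e) =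
        wcv red Q χ (fun x : Base r G => wrF r e x) := by
    intro Q χ h
    rw [← wcv_cm red (bE r G) h hcl, hF]
  have hP : ∀ (Q : Subgroup (Base r G)) (χ : Base r G → ℂ),
      PP p red (tensF fun _ : ZMod r => e) (cm (bE r G) Q) (fun x => χ (bE r G x)) ↔
        (IsW p Q χ ∧ wcv red Q χ (fun x : Base r G => wrF r e x) = 1) := by
    intro Q χ
    unfold PP
    rw [isW_cm_iff]
    exact and_congr_right fun h => by rw [hwc Q χ h]
  constructor
  · rw [wsum_tot, ← tot_cm (bE r G) hP, tot_pi h1 h2 he, ZMod.card]
    change (tot fun Q χ => IsW p Q χ ∧ wcv red Q χ e = 1) ^ r = _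
    rw [hw, mul_pow]
  · have h5 := tot_fix (ι := ZMod r) (red := red) h1 h2 he 0 FO (fun w => FO_iff' h1 h2 he.cl w)
    rw [ZMod.card, hO] at h5
    rw [← h5]
    symm
    refine tot_cm (bE r G) fun Q χ => ?_
    rw [fixedOut_iff, hP, and_assoc]

end Pool.Agent.P8H84.DL
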